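import Mathlib
import Pool.Agent.Lib.MP_f310b7_an.Link

set_option autoImplicit false

namespace Pool.Agent.Results.MP_f310b7_an.ExplicitBoundsDimFour

/-- The five vertices of the nondegenerate simplices contained in the cube `[0,1]^4`. -/
def simplices : Set (Fin 5 → (Fin 4 → ℝ)) :=
  {v | AffineIndependent ℝ v ∧ ∀ j, v j ∈ Set.Icc (0 : Fin 4 → ℝ) 1}

/-- The operator norm of the interpolation projector with nodes `v j`: the supremum of `|Pf(x)|` over
`x` in the cube and `f` continuous on the cube with `|f| ≤ 1` there, where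
`Pf(x) = ∑ f(v j) b j` and `b` are the barycentric coordinates of `x` with respect to `v`. -/
noncomputable def projNorm (v : Fin 5 → (Fin 4 → ℝ)) : ℝ :=
  sSup {t : ℝ | ∃ f : (Fin 4 → ℝ) → ℝ, ContinuousOn f (Set.Icc (0 : Fin 4 → ℝ) 1) ∧
    (∀ y ∈ Set.Icc (0 : Fin 4 → ℝ) 1, |f y| ≤ 1) ∧
    ∃ x ∈ Set.Icc (0 : Fin 4 → ℝ) 1, ∃ b : Fin 5 → ℝ,
      ∑ j, b j = 1 ∧ ∑ j, b j • v j = x ∧ t = |∑ j, f (v j) * b j|}

/-- The absorption index of the simplex with vertices `v j`: the least `σ ≥ 1` such that the simplex,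
scaled by `σ` about its centre of gravity, contains the cube. -/
noncomputable def absorption (v : Fin 5 → (Fin 4 → ℝ)) : ℝ :=
  sInf {σ : ℝ | 1 ≤ σ ∧ Set.Icc (0 : Fin 4 → ℝ) 1 ⊆
    (AffineMap.homothety ((5 : ℝ)⁻¹ • ∑ j, v j) σ) '' convexHull ℝ (Set.range v)}

/-- `θ_4(Q_4)`. -/
noncomputable def theta4 : ℝ := sInf (projNorm '' simplices)

/-- `ξ_4(Q_4)`. -/
noncomputable def xi4 : ℝ := sInf (absorption '' simplices)

open Pool.Agent.Lib.MPf310b7

/-- The explicit simplex, scaled by `14393/3498` about its centroid, covers the cube. -/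
theorem cover : Set.Icc (0 : Fin 4 → ℝ) 1 ⊆
    (AffineMap.homothety ((5 : ℝ)⁻¹ • ∑ j, v0 j) (14393 / 3498 : ℝ)) ''
      convexHull ℝ (Set.range v0) := by
  intro y hy
  have hsum := m0_sum y
  have hcomb := m0_comb y
  have hge := m0_ge y hy
  refine ⟨∑ j, ((5 : ℝ)⁻¹ + (3498 / 14393 : ℝ) * (m0 y j - (5 : ℝ)⁻¹)) • v0 j, ?_, ?_⟩
  · refine (convex_convexHull ℝ _).sum_mem (fun j _ => ?_) ?_
      (fun j _ => subset_convexHull ℝ _ (Set.mem_range_self j))
    · have := hge j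
      linarith
    · rw [Finset.sum_add_distrib, ← Finset.mul_sum, Finset.sum_sub_distrib, hsum]
      simp
  · rw [AffineMap.homothety_apply, vsub_eq_sub, vadd_eq_add]
    have h1 : ∑ j, ((5 : ℝ)⁻¹ + (3498 / 14393 : ℝ) * (m0 y j - (5 : ℝ)⁻¹)) • v0 j
        = (1 - 3498 / 14393 : ℝ) • ((5 : ℝ)⁻¹ • ∑ j, v0 j) + (3498 / 14393 : ℝ) • y := by
      conv_rhs => rw [← hcomb]
      rw [Finset.smul_sum, Finset.smul_sum, Finset.smul_sum, ← Finset.sum_add_distrib]
      refine Finset.sum_congr rfl fun j _ => ?_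
      rw [smul_smul, smul_smul, ← add_smul]
      congr 1
      ring
    rw [h1]
    module

/-- `ξ_4 ≤ 14393/3498 = 4.1146...`, `θ_4 ≥ 2.246`, and hence `2(ξ_4 - 1) < 5(θ_4 - 1)`: the
inequality between the two constants is strict in dimension four. -/
theorem result : xi4 ≤ 14393 / 3498 ∧ 1123 / 500 ≤ theta4 ∧ 2 * (xi4 - 1) < 5 * (theta4 - 1) := by
  have hxi : xi4 ≤ 14393 / 3498 := by
    refine le_trans (csInf_le ?_ ⟨v0, ⟨v0_indep, v0_mem⟩, rfl⟩) ?_
    · refine ⟨0, ?_⟩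
      rintro _ ⟨v, -, rfl⟩
      exact Real.sInf_nonneg fun σ hσ => by linarith [hσ.1]
    · exact csInf_le ⟨1, fun σ hσ => hσ.1⟩ ⟨by norm_num, cover⟩
  have hth : (1123 / 500 : ℝ) ≤ theta4 := by
    refine le_csInf (Set.Nonempty.image _ ⟨v0, v0_indep, v0_mem⟩) ?_
    rintro _ ⟨v, ⟨hv, hm⟩, rfl⟩
    have := val_lower v hv hm
    exact le_trans (by norm_num) this
  refine ⟨hxi, hth, ?_⟩
  linarith

end Pool.Agent.Results.MP_f310b7_an.ExplicitBoundsDimFour
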